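import Pool.Agent.N70.AW.Stm2

/-!
# Cyclic vector in the fixed field of a subgroup (`St_cv`)
-/

set_option autoImplicit false

namespace Pool.Agent.N400.AW.CV

open Polynomial Pool.Agent.N70.AW

/-- Wronskian criterion -/
lemma wronsk {K Z T : Type} [Field K] [Field Z] [Algebra K Z] [DecidableEq T] (D : Derivation K Z Z) (y : T → Z) :
    ∀ (n : ℕ) (s : Finset T), s.card = n → ∀ h : T → Z, (∃ t ∈ s, h t ≠ 0) →
      (∀ l < n, ∑ t ∈ s, h t * (D^[l]) (y t) = 0) →
      ∃ c : T → Z, (∀ t, D (c t) = 0) ∧ (∀ t ∉ s, c t = 0) ∧ (∃ t ∈ s, c t ≠ 0) ∧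
        ∑ t ∈ s, c t * y t = 0 := by
  intro n
  induction n with
  | zero =>
    intro s hs h hh _
    rw [Finset.card_eq_zero] at hs
    subst hs
    obtain ⟨t, ht, _⟩ := hh
    simp at ht
  | succ n ih =>
    intro s hs h hh hrel
    obtain ⟨t₀, ht₀, hne⟩ := hh
    -- normalise
    set h' : T → Z := fun t => h t / h t₀ with hh'
    have h't₀ : h' t₀ = 1 := div_self hne
    have hrel' : ∀ l < n + 1, ∑ t ∈ s, h' t * (D^[l]) (y t) = 0 := by
      intro l hl
      have := hrel l hl
      have e : ∑ t ∈ s, h' t * (D^[l]) (y t) = (∑ t ∈ s, h t * (D^[l]) (y t)) / h t₀ := by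
        rw [Finset.sum_div]
        refine Finset.sum_congr rfl fun t _ => ?_
        simp only [hh']; ring
      rw [e, this, zero_div]
    have hder : ∀ l < n, ∑ t ∈ s.erase t₀, D (h' t) * (D^[l]) (y t) = 0 := by
      intro l hl
      have h1 := congrArg D (hrel' l (by omega))
      rw [map_sum, map_zero] at h1
      have h2 := hrel' (l + 1) (by omega)
      have e : ∀ t, D (h' t * (D^[l]) (y t)) = h' t * (D^[l+1]) (y t) + D (h' t) * (D^[l]) (y t) := by
        intro t
        rw [D.leibniz, Function.iterate_succ_apply', smul_eq_mul, smul_eq_mul]; ring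
      simp only [e] at h1
      rw [Finset.sum_add_distrib, h2, zero_add] at h1
      rw [← Finset.add_sum_erase s _ ht₀, h't₀] at h1
      simpa using h1
    by_cases hall : ∀ t ∈ s.erase t₀, D (h' t) = 0
    · refine ⟨fun t => if t ∈ s then h' t else 0, ?_, ?_, ⟨t₀, ht₀, ?_⟩, ?_⟩
      · intro t
        beta_reduce
        by_cases hts : t ∈ s
        · rw [if_pos hts]
          by_cases htt : t = t₀
          · rw [htt, h't₀]; simp
          · exact hall t (Finset.mem_erase.2 ⟨htt, hts⟩)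
        · rw [if_neg hts]; simp
      · intro t hts
        beta_reduce
        rw [if_neg hts]
      · beta_reduce
        rw [if_pos ht₀, h't₀]; exact one_ne_zero
      · have := hrel' 0 (by omega)
        simp only [Function.iterate_zero, id] at this
        refine Eq.trans ?_ this
        refine Finset.sum_congr rfl fun t ht => ?_
        beta_reduce
        rw [if_pos ht]
    · push Not at hall
      obtain ⟨t₁, ht₁, hne₁⟩ := hall
      obtain ⟨c, hc1, hc2, ⟨t₂, ht₂, hc3⟩, hc4⟩ := ih (s.erase t₀) (by rw [Finset.card_erase_of_mem ht₀, hs]; rfl)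
        (fun t => D (h' t)) ⟨t₁, ht₁, hne₁⟩ hder
      refine ⟨c, hc1, ?_, ⟨t₂, Finset.mem_of_mem_erase ht₂, hc3⟩, ?_⟩
      · intro t ht
        exact hc2 t (fun h => ht (Finset.mem_of_mem_erase h))
      · rw [← Finset.add_sum_erase s _ ht₀, hc4, hc2 t₀ (by simp)]
        simp


theorem t_cv : St_cv := by
  intro K Z _ _ _ _ _ _ _ _ D hD P m g hg
  classical
  obtain ⟨z, hz⟩ := exists_linearIndependent_algEquiv_apply (RatFunc K) Z
  have : Fintype (Z ≃ₐ[RatFunc K] Z) := Fintype.ofFinite _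
  rw [Fintype.linearIndependent_iff] at hz
  set g₀ : Z := ∑ w : Z ≃ₐ[RatFunc K] Z, (if w ∈ P then (1 : RatFunc K) else 0) • w z with hg₀
  have hact : ∀ γ : Z ≃ₐ[RatFunc K] Z, γ g₀ =
      ∑ w : Z ≃ₐ[RatFunc K] Z, (if γ⁻¹ * w ∈ P then (1 : RatFunc K) else 0) • w z := by
    intro γ
    rw [hg₀, map_sum]
    refine Fintype.sum_equiv (Equiv.mulLeft γ) _ _ fun w => ?_
    rw [Equiv.coe_mulLeft, inv_mul_cancel_left, map_smul, AlgEquiv.mul_apply]
  have hstab : ∀ γ : Z ≃ₐ[RatFunc K] Z, γ g₀ = g₀ ↔ γ ∈ P := by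
    intro γ
    constructor
    · intro h
      have h1 : ∑ w : Z ≃ₐ[RatFunc K] Z, ((if γ⁻¹ * w ∈ P then (1 : RatFunc K) else 0) -
          (if w ∈ P then (1 : RatFunc K) else 0)) • w z = 0 := by
        simp only [sub_smul]
        rw [Finset.sum_sub_distrib, ← hact γ, ← hg₀, h, sub_self]
      have h2 := hz _ h1 γ
      beta_reduce at h2
      by_contra hc
      rw [inv_mul_cancel, if_pos P.one_mem, if_neg hc] at h2
      simp at h2
    · intro h
      rw [hact γ]
      conv_rhs => rw [hg₀]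
      refine Finset.sum_congr rfl fun w _ => ?_
      have : γ⁻¹ * w ∈ P ↔ w ∈ P := P.mul_mem_cancel_left (P.inv_mem h)
      simp only [this]
  refine ⟨g₀, hstab, ?_⟩
  have hlin : ∀ c : Fin m → RatFunc K, ∑ t, c t • g t g₀ = 0 → ∀ t, c t = 0 := by
    intro c hc s
    have h1 : ∑ w : Z ≃ₐ[RatFunc K] Z, (∑ t, c t * (if (g t)⁻¹ * w ∈ P then (1 : RatFunc K) else 0)) • w z = 0 := by
      rw [← hc]
      simp only [Finset.sum_smul]
      rw [Finset.sum_comm]
      refine Finset.sum_congr rfl fun t _ => ?_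
      rw [hact (g t), Finset.smul_sum]
      refine Finset.sum_congr rfl fun w _ => ?_
      rw [mul_smul]
    have h2 := hz _ h1 (g s)
    beta_reduce at h2
    rw [Finset.sum_eq_single s] at h2
    · rw [inv_mul_cancel, if_pos P.one_mem, mul_one] at h2
      exact h2
    · intro t _ hts
      rw [if_neg, mul_zero]
      intro hmem
      apply hts
      apply hg.1
      exact QuotientGroup.eq.2 hmem
    · intro h; exact absurd (Finset.mem_univ s) h
  have hcomm : ∀ (γ : Z ≃ₐ[RatFunc K] Z) (l : ℕ) (x : Z), γ ((D^[l]) x) = (D^[l]) (γ x) := by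
    intro γ l
    induction l with
    | zero => intro x; rfl
    | succ l ih => intro x; rw [Function.iterate_succ_apply', Function.iterate_succ_apply', ← hD.comm, ih]
  intro hdet
  rw [← Matrix.exists_vecMul_eq_zero_iff] at hdet
  obtain ⟨v, hv0, hv⟩ := hdet
  obtain ⟨t₀, ht₀⟩ : ∃ t, v t ≠ 0 := by
    by_contra hc
    push Not at hc
    exact hv0 (funext hc)
  obtain ⟨c, hc1, -, ⟨t₁, _, hc2⟩, hc3⟩ := wronsk D (fun t => g t g₀) m Finset.univ (by simp) v
    ⟨t₀, Finset.mem_univ _, ht₀⟩ (by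
      intro l hl
      have := congrFun hv ⟨l, hl⟩
      rw [Matrix.vecMul, dotProduct] at this
      simp only [Matrix.of_apply, Pi.zero_apply] at this
      rw [← this]
      refine Finset.sum_congr rfl fun t _ => ?_
      rw [hcomm])
  have hck : ∀ t, ∃ k : K, algebraMap K Z k = c t := fun t => hD.const _ (hc1 t)
  choose k hk using hck
  have h3 : ∑ t, (algebraMap K (RatFunc K) (k t)) • g t g₀ = 0 := by
    rw [← hc3]
    refine Finset.sum_congr rfl fun t _ => ?_
    rw [Algebra.smul_def, ← IsScalarTower.algebraMap_apply, hk]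
  have h4 := hlin _ h3 t₁
  apply hc2
  rw [← hk, IsScalarTower.algebraMap_apply K (RatFunc K) Z, h4, map_zero]

end Pool.Agent.N400.AW.CV
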