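import Pool.Agent.N70.AW.Stm
import Pool.Agent.H391R2.T4.Hens

/-!
# Degree drop of a polynomial over power series (`St_hens`)
-/

set_option autoImplicit false

namespace Pool.Agent.N400.AW.HENS

open Polynomial Pool.Agent.N70.AW

section

variable {κ : Type} [Field κ]

/-- Hensel's lemma for a simple root of a polynomial which need not be monic. -/
theorem hensel_nm (f : Polynomial (PowerSeries κ)) (a : κ)
    (h0 : (f.map PowerSeries.constantCoeff).eval a = 0)
    (h1 : (f.map PowerSeries.constantCoeff).derivative.eval a ≠ 0) :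
    ∃ α : PowerSeries κ, f.eval α = 0 ∧ PowerSeries.constantCoeff α = a := by
  set g : Polynomial (PowerSeries κ) := taylor (PowerSeries.C a) f with hg
  have e0 : PowerSeries.constantCoeff (g.coeff 0) = 0 := by
    rw [hg, taylor_coeff_zero, ← h0, ← Polynomial.eval_map_apply, PowerSeries.constantCoeff_C]
  have e1 : PowerSeries.constantCoeff (g.coeff 1) ≠ 0 := by
    rw [hg, taylor_coeff_one, ← Polynomial.eval_map_apply, PowerSeries.constantCoeff_C,
      ← Polynomial.derivative_map]
    exact h1
  set N : ℕ := g.natDegree + 2 with hN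
  set c : ℕ → PowerSeries κ := g.coeff with hc
  set S : Polynomial (PowerSeries κ) :=
    ∑ i ∈ Finset.range N, C (c (i + 1) * c 0 ^ i) * X ^ (N - 1 - i) with hS
  have hdeg : S.degree < N := by
    rw [← mem_degreeLT, hS]
    refine Submodule.sum_mem _ fun i hi => mem_degreeLT.2 ?_
    refine (degree_C_mul_X_pow_le _ _).trans_lt ?_
    have : N - 1 - i < N := by omega
    exact_mod_cast this
  have hmon : (X ^ N + S).Monic := monic_X_pow_add hdeg
  have hmap : (X ^ N + S).map PowerSeries.constantCoeff =
      X ^ N + C (PowerSeries.constantCoeff (c 1)) * X ^ (N - 1) := by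
    rw [Polynomial.map_add, Polynomial.map_pow, Polynomial.map_X, hS, Polynomial.map_sum]
    congr 1
    rw [Finset.sum_eq_single 0]
    · simp
    · intro i _ hi
      rw [Polynomial.map_mul, Polynomial.map_C, map_mul, map_pow, e0, zero_pow hi, mul_zero,
        Polynomial.C_0, zero_mul]
    · intro h; simp [hN] at h
  set b : κ := PowerSeries.constantCoeff (c 1) with hb
  obtain ⟨V, hV, hV'⟩ := Pool.Agent.H391R2.T4.hensel (X ^ N + S) hmon (-b) (by
      rw [hmap]
      have : N = (N - 1) + 1 := by omega
      simp only [eval_add, eval_pow, eval_X, eval_mul, eval_C]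
      conv_lhs => rw [this]
      rw [pow_succ]
      simp only [Nat.add_sub_cancel]
      ring) (by
      rw [hmap]
      obtain ⟨M, hM⟩ : ∃ M, N = M + 2 := ⟨g.natDegree, rfl⟩
      rw [hM]
      have : M + 2 - 1 = M + 1 := rfl
      rw [this]
      simp only [derivative_add, derivative_X_pow, derivative_mul, derivative_C, zero_mul, zero_add,
        eval_add, eval_mul, eval_C, eval_pow, eval_X]
      have e : ((M + 2 : ℕ) : κ) * (-b) ^ (M + 2 - 1) + b * (((M + 1 : ℕ) : κ) * (-b) ^ (M + 1 - 1)) =
          (-b) ^ (M + 1) := by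
        have : M + 2 - 1 = M + 1 := rfl
        rw [this, Nat.add_sub_cancel, pow_succ]
        push_cast
        ring
      rw [e]
      exact pow_ne_zero _ (neg_ne_zero.2 e1))
  have hVu : IsUnit V := by
    rw [PowerSeries.isUnit_iff_constantCoeff, hV']
    exact (isUnit_iff_ne_zero.2 (neg_ne_zero.2 e1))
  obtain ⟨W, hW⟩ := hVu.exists_right_inv
  -- the root
  have hgy : g.eval (c 0 * W) = 0 := by
    rw [eval_eq_sum_range' (n := N + 1) (by omega), Finset.sum_range_succ']
    simp only [pow_zero, mul_one]
    have h2 : (W ^ N * c 0) * (X ^ N + S).eval V = 0 := by rw [hV, mul_zero]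
    rw [← h2, eval_add, eval_pow, eval_X, hS, eval_finsetSum, mul_add]
    have e3 : W ^ N * c 0 * V ^ N = c 0 := by
      calc W ^ N * c 0 * V ^ N = c 0 * (V * W) ^ N := by ring
        _ = c 0 := by rw [hW, one_pow, mul_one]
    rw [e3, add_comm, Finset.mul_sum]
    congr 1
    refine Finset.sum_congr rfl fun i hi => ?_
    rw [Finset.mem_range] at hi
    rw [eval_mul, eval_C, eval_pow, eval_X]
    have e4 : W ^ N = W ^ (i + 1) * W ^ (N - 1 - i) := by
      rw [← pow_add]; congr 1; omega
    rw [e4]
    calc g.coeff (i + 1) * (c 0 * W) ^ (i + 1)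
        = c (i + 1) * c 0 ^ i * c 0 * W ^ (i + 1) * 1 := by rw [mul_pow]; ring
      _ = c (i + 1) * c 0 ^ i * c 0 * W ^ (i + 1) * (V * W) ^ (N - 1 - i) := by
          rw [hW, one_pow]
      _ = _ := by rw [mul_pow]; ring
  refine ⟨c 0 * W + PowerSeries.C a, ?_, ?_⟩
  · rw [← taylor_eval, ← hg, hgy]
  · rw [map_add, map_mul, e0, zero_mul, zero_add, PowerSeries.constantCoeff_C]

end

theorem t_hens : St_hens := by
  intro κ _ _ _ f n n' hn hn' hsep hlt hint Ω _ _ _ _ r hr hroot
  classical
  set fb := f.map PowerSeries.constantCoeff with hfb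
  set ι₁ : PowerSeries κ →+* LaurentSeries κ := algebraMap (PowerSeries κ) (LaurentSeries κ) with hι₁
  set ι₂ : LaurentSeries κ →+* Ω := algebraMap (LaurentSeries κ) Ω with hι₂
  have inj1 : Function.Injective ι₁ := IsFractionRing.injective (PowerSeries κ) (LaurentSeries κ)
  have inj2 : Function.Injective ι₂ := ι₂.injective
  have hf0 : f ≠ 0 := by
    rintro rfl
    simp at hn
    omega
  have hfb0 : fb ≠ 0 := by
    intro h
    rw [h] at hsep
    exact not_separable_zero hsep
  set F := (f.map ι₁).map ι₂ with hF
  have hFdeg : F.natDegree = n := by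
    rw [hF, natDegree_map_eq_of_injective inj2, natDegree_map_eq_of_injective inj1, hn]
  have hF0 : F ≠ 0 := by
    rw [hF]
    exact (Polynomial.map_ne_zero_iff inj2).2 ((Polynomial.map_ne_zero_iff inj1).2 hf0)
  -- every root is an `r i`
  have hall : ∀ w : Ω, F.eval w = 0 → ∃ i, r i = w := by
    intro w hw
    by_contra hc
    push Not at hc
    have h1 : (insert w (Finset.univ.image r)).card ≤ F.roots.toFinset.card := by
      apply Finset.card_le_card
      intro x hx
      rw [Multiset.mem_toFinset, mem_roots hF0]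
      rw [Finset.mem_insert, Finset.mem_image] at hx
      rcases hx with rfl | ⟨i, -, rfl⟩
      · exact hw
      · exact hroot i
    rw [Finset.card_insert_of_notMem, Finset.card_image_of_injective _ hr, Finset.card_univ,
      Fintype.card_fin] at h1
    · have h2 := Multiset.toFinset_card_le F.roots
      have h3 := F.card_roots'
      omega
    · rw [Finset.mem_image]
      rintro ⟨i, -, hi⟩
      exact hc i hi
  -- permutations
  have hperm : ∀ τ : Ω ≃ₐ[LaurentSeries κ] Ω, ∃ π : Equiv.Perm (Fin n), ∀ i, τ (r i) = r (π i) := by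
    intro τ
    have h1 : ∀ i, ∃ j, r j = τ (r i) := by
      intro i
      apply hall
      have h2 : F.eval (τ (r i)) = τ (F.eval (r i)) := by
        rw [hF, hι₂]
        rw [Polynomial.eval_map_algebraMap, Polynomial.eval_map_algebraMap]
        exact Polynomial.aeval_algHom_apply τ.toAlgHom (r i) (f.map ι₁)
      rw [h2, hroot i, map_zero]
    choose j hj using h1
    have hjinj : Function.Injective j := by
      intro a b hab
      apply hr
      apply τ.injective
      rw [← hj, ← hj, hab]
    refine ⟨Equiv.ofBijective j (Finite.injective_iff_bijective.1 hjinj), fun i => ?_⟩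
    rw [Equiv.ofBijective_apply, hj]
  -- the lifts
  have hlift : ∀ a : fb.roots.toFinset, ∃ α : PowerSeries κ, f.eval α = 0 ∧
      PowerSeries.constantCoeff α = a := by
    rintro ⟨a, ha⟩
    rw [Multiset.mem_toFinset, mem_roots hfb0] at ha
    refine hensel_nm f a ha ?_
    intro h
    obtain ⟨u, v, huv⟩ := hsep
    have := congrArg (Polynomial.eval a) huv
    rw [eval_add, eval_mul, eval_mul, eval_one] at this
    rw [hfb] at ha
    rw [IsRoot.def] at ha
    rw [hfb, ha, h] at this
    simp at this
  choose α hα hα' using hlift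
  have hj : ∀ a : fb.roots.toFinset, ∃ i, r i = ι₂ (ι₁ (α a)) := by
    intro a
    apply hall
    rw [hF, Polynomial.eval_map_apply, Polynomial.eval_map_apply, hα, map_zero, map_zero]
  choose j hj using hj
  have hjinj : Function.Injective j := by
    intro a b hab
    have h1 : ι₂ (ι₁ (α a)) = ι₂ (ι₁ (α b)) := by rw [← hj, ← hj, hab]
    have h2 := inj1 (inj2 h1)
    apply Subtype.ext
    rw [← hα', ← hα', h2]
  have hcard : fb.roots.toFinset.card = n' := by
    rw [Multiset.toFinset_card_of_nodup (nodup_roots hsep), IsAlgClosed.card_roots_eq_natDegree, hn']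
  have hsupp : ∀ (τ : Ω ≃ₐ[LaurentSeries κ] Ω) (π : Equiv.Perm (Fin n)),
      (∀ i, τ (r i) = r (π i)) → π.support.card ≤ n - n' := by
    intro τ π h
    have h1 : π.support ⊆ (Finset.univ.image j)ᶜ := by
      intro i hi
      rw [Finset.mem_compl, Finset.mem_image]
      rintro ⟨a, -, rfl⟩
      rw [Equiv.Perm.mem_support] at hi
      apply hi
      apply hr
      rw [← h, hj, hι₂, τ.commutes]
    refine (Finset.card_le_card h1).trans ?_
    rw [Finset.card_compl, Finset.card_image_of_injective _ hjinj, Fintype.card_fin,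
      Finset.card_univ, Fintype.card_coe, hcard]
  -- a root which is not rational
  have hirr : ∃ i, r i ∉ Set.range ι₂ := by
    by_contra hc
    push Not at hc
    have h1 : ∀ i, ∃ z : PowerSeries κ, ι₂ (ι₁ z) = r i := by
      intro i
      obtain ⟨y, hy⟩ := hc i
      have h2 : (f.map ι₁).eval y = 0 := by
        apply inj2
        rw [map_zero, ← Polynomial.eval_map_apply, hy]
        exact hroot i
      obtain ⟨z, hz⟩ := hint y h2
      exact ⟨z, by rw [← hy, ← hz]⟩
    choose z hz using h1
    have hzinj : Function.Injective z := by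
      intro a b hab
      apply hr
      rw [← hz, ← hz, hab]
    have hzroot : ∀ i, f.eval (z i) = 0 := by
      intro i
      apply inj1
      apply inj2
      rw [map_zero, map_zero, ← Polynomial.eval_map_apply, ← Polynomial.eval_map_apply, hz]
      exact hroot i
    have hle : (Finset.univ.val.map z) ≤ f.roots := by
      rw [Multiset.le_iff_subset (Multiset.Nodup.map hzinj Finset.univ.nodup)]
      intro x hx
      obtain ⟨i, -, rfl⟩ := Multiset.mem_map.1 hx
      rw [mem_roots hf0]
      exact hzroot i
    have hcd : f.roots.card = f.natDegree := by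
      apply le_antisymm f.card_roots'
      have := Multiset.card_le_card hle
      simpa [hn] using this
    have heq : f.roots = Finset.univ.val.map z := by
      symm
      apply Multiset.eq_of_le_of_card_le hle
      rw [hcd, hn]; simp
    have hfac := C_leadingCoeff_mul_prod_multiset_X_sub_C hcd
    rw [heq, Multiset.map_map] at hfac
    have hfac' : f = C f.leadingCoeff * ∏ i, (X - C (z i)) := hfac.symm
    have hfb' : fb = C (PowerSeries.constantCoeff f.leadingCoeff) *
        ∏ i, (X - C (PowerSeries.constantCoeff (z i))) := by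
      rw [hfb]
      conv_lhs => rw [hfac']
      rw [Polynomial.map_mul, Polynomial.map_C, Polynomial.map_prod]
      simp
    have hl0 : PowerSeries.constantCoeff f.leadingCoeff ≠ 0 := by
      intro h
      rw [h] at hfb'
      apply hfb0
      rw [hfb']; simp
    have : fb.natDegree = n := by
      rw [hfb', natDegree_C_mul hl0, natDegree_prod_of_monic _ _ (fun i _ => monic_X_sub_C _)]
      simp
    omega
  obtain ⟨i, hi⟩ := hirr
  have hgal : IsGalois (LaurentSeries κ) Ω := by
    have : IsAlgClosure (LaurentSeries κ) Ω := ⟨inferInstance, inferInstance⟩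
    have : CharZero (LaurentSeries κ) :=
      charZero_of_injective_ringHom (f := ι₁.comp (PowerSeries.C (R := κ))) (RingHom.injective _)
    exact IsAlgClosure.isGalois _ _
  obtain ⟨τ, hτ⟩ : ∃ τ : Ω ≃ₐ[LaurentSeries κ] Ω, τ (r i) ≠ r i := by
    by_contra hc
    push Not at hc
    exact hi ((InfiniteGalois.mem_range_algebraMap_iff_fixed (r i)).2 hc)
  obtain ⟨π, hπ⟩ := hperm τ
  refine ⟨τ, π, hπ, ?_, hsupp τ π hπ⟩
  rintro rfl
  apply hτ
  rw [hπ]; rfl

end Pool.Agent.N400.AW.HENS
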